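import Pool.Agent.H354.BG.Stm

set_option autoImplicit false

/-! Project BG (helper354), task BG-SYSALL (helper36). -/

namespace Pool.Agent.H36.BG.SYSALL

open Pool.Agent.H354.BG

theorem t_SYSALL (hns : S_NS) (hf : S_F) (hgg : S_GG) (hlx : S_LX) : S_SYSALL := by
  intro D
  suffices H : ∀ (n : ℕ) (U : Finset (Fin D.r)), U.card = n → ∀ b : Fin D.r, b ∉ U →
      (∃ v, D.β v = b) → SysOK D U b from fun U b hb hv => H _ U rfl b hb hv
  intro n
  induction n using Nat.strong_induction_on with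
  | _ n ih =>
    intro U hU b hb hv
    have hF : Fok D U b := by
      apply hf D U b hb
      intro c hc hR
      by_cases hg : ∃ w, D.β w = c
      · have hcZ : c ∉ pZ D U b := fun h => by
          have h2 := ((mem_pZ D U b).mp h).2.2
          rw [hR] at h2
          exact Bool.noConfusion h2
        have hlt : (pZ D U b).card < n := by
          rw [← hU]
          exact Finset.card_lt_card ⟨pZ_sub D U b, fun h => hcZ (h hc)⟩
        exact hns D _ c hcZ (ih _ hlt _ rfl c hcZ hg)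
      · exact ⟨fun w _ _ hw => absurd ⟨w, hw⟩ hg, fun w _ _ _ _ _ _ hw => absurd ⟨w, hw⟩ hg⟩
    obtain ⟨g1, g2⟩ := hgg D U b hb hF
    obtain ⟨x0, l1, l2⟩ := hlx D U b hb
    refine ⟨fun p => ⟨Sum.inl p.1, rfl⟩, ?_, x0, l1, l2, g1, g2⟩
    intro l
    rcases l with g | q
    · obtain ⟨v, hv⟩ := hv
      exact ⟨(g, ⟨v, hv⟩), rfl⟩
    · obtain ⟨⟨⟨v, w⟩, hc⟩, g⟩ := q
      exact ⟨(QuotientGroup.mk g.out, ⟨v, hc.1⟩), rfl, g.out, rfl, (QuotientGroup.out_eq' g).symm⟩

end Pool.Agent.H36.BG.SYSALL
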